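import Pool.Agent.Helper51.HN.P26

set_option autoImplicit false

/-!
Nonreal fields of totally Henselian elements, and the fields over which they are pro-`p`.
-/

namespace Pool.Agent.Results.MP_22cb07_al.NonrealFields

open Polynomial

/-- Let `F i` be finitely many algebraic extensions of a field `K₀` in an algebraic closure `Ω` of
`K₀`, each of them Henselian with respect to a nontrivial valuation, and let `T` be the
intersection of all the conjugates `τ (F i)` over `K₀`. Suppose that `-1` is a sum of squares in
`T`. Let `K` be a field between `K₀` and `T` such that the degree over `K` of every finite Galois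
extension `M ≤ T` of `K` is a power of the prime `p`. Then `K` is ample: a plane curve `f = 0` over
`K` with a `K`-rational simple point has infinitely many `K`-rational points. -/
theorem result {K₀ Ω : Type*} [Field K₀] [Field Ω] [Algebra K₀ Ω] [IsAlgClosure K₀ Ω]
    {ι : Type*} [Finite ι] [Nonempty ι] (F : ι → IntermediateField K₀ Ω)
    (hF : ∀ i, ∃ 𝒪 : ValuationSubring (F i), 𝒪 ≠ ⊤ ∧ HenselianLocalRing 𝒪)
    (T : IntermediateField K₀ Ω) (hT : T = ⨅ (i : ι) (τ : Ω ≃ₐ[K₀] Ω), (F i).map τ.toAlgHom)
    (hreal : IsSumSq (-1 : T)) (K : IntermediateField K₀ Ω) (hK : K ≤ T) (p : ℕ) (hp : p.Prime)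
    (hM : ∀ M : IntermediateField K Ω, FiniteDimensional K M → IsGalois K M →
      M.restrictScalars K₀ ≤ T → ∃ j : ℕ, Module.finrank K M = p ^ j)
    (f : K[X][X]) (a b : K) (h0 : f.evalEval a b = 0) (h1 : (derivative f).evalEval a b ≠ 0) :
    {x : K | ∃ y : K, f.evalEval x y = 0}.Infinite := by
  have : IsAlgClosed Ω := IsAlgClosure.isAlgClosed K₀
  have : Normal K₀ Ω := IsAlgClosure.normal K₀ Ω
  subst hT
  exact Pool.Agent.Helper51.HN.infinite_tot2 F (fun i => Or.inr (hF i)) hreal K hK p hp hM f a b
    h0 h1

end Pool.Agent.Results.MP_22cb07_al.NonrealFields
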